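import Mathlib
import Pool.Agent.K3h37.RS.Low.Stm

/-!
# LOW: a positive proportion of the pairs
-/

set_option autoImplicit false

namespace Pool.Agent.K3h97.RS

open Finset
open Pool.Agent.K3h37.RS.Low

theorem cnt {Y N : ℕ} (hN : 0 < N) (S : Finset ℕ) (hS : ∀ a ∈ S, Y < a ∧ a ≤ 2 * Y)
    (hc : ∀ a ∈ S, ∀ b ∈ S, a ≡ b [MOD N]) : S.card ≤ Y / N + 1 := by
  rcases S.eq_empty_or_nonempty with rfl | hne
  · simp
  obtain ⟨a0, ha0, hmin⟩ := S.exists_min_image id hne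
  have h1 : ∀ a ∈ S, N ∣ a - a0 := fun a ha => (Nat.modEq_iff_dvd' (hmin a ha)).1 (hc a0 ha0 a ha)
  have h2 : S.card ≤ (range (Y / N + 1)).card := by
    refine card_le_card_of_injOn (fun a => (a - a0) / N) ?_ ?_
    · intro a ha
      have ha : a ∈ S := ha
      have e1 := hS a ha
      have e2 := hS a0 ha0
      rw [coe_range, Set.mem_Iio]
      exact Nat.lt_succ_of_le (Nat.div_le_div_right (by omega))
    · intro a ha b hb hab
      have ha : a ∈ S := ha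
      have hb : b ∈ S := hb
      have e1 : (a - a0) / N * N = a - a0 := Nat.div_mul_cancel (h1 a ha)
      have e2 : (b - a0) / N * N = b - a0 := Nat.div_mul_cancel (h1 b hb)
      have e3 : (a - a0) / N = (b - a0) / N := hab
      rw [e3] at e1
      have e4 : a0 ≤ a := hmin a ha
      have e5 : a0 ≤ b := hmin b hb
      omega
  rwa [card_range] at h2

/-- the integers congruent to `1` modulo `60` -/
def AA (Y : ℕ) : Finset ℕ := (Ioc Y (2 * Y)).filter fun a => a % 60 = 1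

theorem mem_AA {Y a : ℕ} : a ∈ AA Y ↔ (Y < a ∧ a ≤ 2 * Y) ∧ a % 60 = 1 := by
  rw [AA, mem_filter, mem_Ioc]

theorem AA_le (Y : ℕ) : (AA Y).card ≤ Y / 60 + 1 :=
  cnt (by norm_num) _ (fun a ha => (mem_AA.1 ha).1) fun a ha b hb => by
    have := (mem_AA.1 ha).2
    have := (mem_AA.1 hb).2
    unfold Nat.ModEq
    omega

theorem le_AA {Y : ℕ} (hY : 1 ≤ Y) : Y ≤ 60 * (AA Y).card + 60 := by
  have h1 : (Icc (Y / 60 + 1) ((2 * Y - 1) / 60)).card ≤ (AA Y).card := by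
    refine card_le_card_of_injOn (fun k => 60 * k + 1) ?_ ?_
    · intro k hk
      have hk' := mem_Icc.1 (mem_coe.1 hk)
      refine mem_coe.2 (mem_AA.2 ?_)
      change (Y < 60 * k + 1 ∧ 60 * k + 1 ≤ 2 * Y) ∧ (60 * k + 1) % 60 = 1
      omega
    · intro a _ b _ hab
      have : 60 * a + 1 = 60 * b + 1 := hab
      omega
  rw [Nat.card_Icc] at h1
  omega

theorem cnt_dvd {Y q : ℕ} (hq : Nat.Coprime q 60) (hq0 : 0 < q) (s : ℕ) :
    ((((AA Y).filter fun a => q ∣ a + s).card : ℕ) : ℝ) ≤ (Y : ℝ) / (60 * q) + 1 := by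
  have h1 : ((AA Y).filter fun a => q ∣ a + s).card ≤ Y / (60 * q) + 1 := by
    refine cnt (by positivity) _ (fun a ha => (mem_AA.1 (mem_filter.1 ha).1).1) ?_
    intro a ha b hb
    obtain ⟨ha1, ha2⟩ := mem_filter.1 ha
    obtain ⟨hb1, hb2⟩ := mem_filter.1 hb
    refine (Nat.modEq_and_modEq_iff_modEq_mul hq.symm).1 ⟨?_, ?_⟩
    · have := (mem_AA.1 ha1).2
      have := (mem_AA.1 hb1).2
      unfold Nat.ModEq
      omega
    · exact Nat.ModEq.add_right_cancel' s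
        (((Nat.modEq_zero_iff_dvd).2 ha2).trans ((Nat.modEq_zero_iff_dvd).2 hb2).symm)
  calc ((((AA Y).filter fun a => q ∣ a + s).card : ℕ) : ℝ) ≤ ((Y / (60 * q) + 1 : ℕ) : ℝ) := by
        exact_mod_cast h1
    _ = ((Y / (60 * q) : ℕ) : ℝ) + 1 := by push_cast; ring
    _ ≤ (Y : ℝ) / ((60 * q : ℕ) : ℝ) + 1 := by
        gcongr
        exact Nat.cast_div_le
    _ = (Y : ℝ) / (60 * q) + 1 := by push_cast; ring

theorem sum_sq (M : ℕ) : ∑ m ∈ Icc 7 M, 1 / (m : ℝ) ^ 2 ≤ 1 / 6 := by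
  have h1 : ∀ N : ℕ, ∑ m ∈ Icc 7 (N + 6), 1 / (m : ℝ) ^ 2 ≤ 1 / 6 - 1 / ((N : ℝ) + 6) := by
    intro N
    induction N with
    | zero => simp
    | succ N ih =>
      have e1 : N + 1 + 6 = (N + 6) + 1 := by ring
      rw [e1, sum_Icc_succ_top (by omega)]
      have e2 : 1 / (((N + 6 + 1 : ℕ) : ℝ)) ^ 2 ≤ 1 / ((N : ℝ) + 6) - 1 / ((N : ℝ) + 6 + 1) := by
        have h3 : (0 : ℝ) < (N : ℝ) + 6 := by positivity
        rw [div_sub_div _ _ h3.ne' (by positivity), div_le_div_iff₀ (by positivity) (by positivity)]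
        push_cast
        nlinarith
      have e3 : ((N + 1 : ℕ) : ℝ) + 6 = (N : ℝ) + 6 + 1 := by push_cast; ring
      rw [e3]
      linarith
  calc ∑ m ∈ Icc 7 M, 1 / (m : ℝ) ^ 2 ≤ ∑ m ∈ Icc 7 (M + 6), 1 / (m : ℝ) ^ 2 :=
        sum_le_sum_of_subset_of_nonneg (Icc_subset_Icc le_rfl (by omega))
          fun _ _ _ => by positivity
    _ ≤ 1 / 6 - 1 / ((M : ℝ) + 6) := h1 M
    _ ≤ 1 / 6 := by
        have : (0 : ℝ) ≤ 1 / ((M : ℝ) + 6) := by positivity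
        linarith

/-- the moduli -/
def MM (M : ℕ) : Finset ℕ := (Icc 7 M).filter fun m => Nat.Coprime m 60

theorem sum_MM (M : ℕ) : ∑ m ∈ MM M, 1 / (m : ℝ) ^ 2 ≤ 1 / 6 :=
  (sum_le_sum_of_subset_of_nonneg (filter_subset _ _) fun _ _ _ => by positivity).trans (sum_sq M)

theorem card_MM (M : ℕ) : (MM M).card ≤ M := by
  refine (card_filter_le _ _).trans ?_
  rw [Nat.card_Icc]
  omega

/-- the three kinds of pairs divisible by a square, and the pairs with a common divisor -/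
def B1 (Y m : ℕ) : Finset (ℕ × ℕ) := (AA Y ×ˢ AA Y).filter fun x => m ^ 2 ∣ x.1 + 0
def B2 (Y m : ℕ) : Finset (ℕ × ℕ) := (AA Y ×ˢ AA Y).filter fun x => m ^ 2 ∣ x.2 + 0
def B3 (Y m : ℕ) : Finset (ℕ × ℕ) := (AA Y ×ˢ AA Y).filter fun x => m ^ 2 ∣ x.1 + x.2
def B4 (Y m : ℕ) : Finset (ℕ × ℕ) := (AA Y ×ˢ AA Y).filter fun x => m ∣ x.1 + 0 ∧ m ∣ x.2 + 0

theorem bad_cover {Y a b : ℕ} (ha : a ∈ AA Y) (hb : b ∈ AA Y)
    (h : ¬ Squarefree (a * b * (a + b))) :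
    (a, b) ∈ (MM (Nat.sqrt (4 * Y))).biUnion (fun m => B1 Y m ∪ B2 Y m ∪ B3 Y m) ∪
      (MM (2 * Y)).biUnion (B4 Y) := by
  rw [Nat.squarefree_iff_prime_squarefree] at h
  push Not at h
  obtain ⟨p, hp, hpd⟩ := h
  obtain ⟨⟨ha1, ha2⟩, ha3⟩ := mem_AA.1 ha
  obtain ⟨⟨hb1, hb2⟩, hb3⟩ := mem_AA.1 hb
  have h2 : a * b * (a + b) % 4 = 2 := by
    rw [Nat.mul_mod, Nat.mul_mod a b, Nat.add_mod a b, show a % 4 = 1 by omega,
      show b % 4 = 1 by omega]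
  have h3 : a * b * (a + b) % 3 = 2 := by
    rw [Nat.mul_mod, Nat.mul_mod a b, Nat.add_mod a b, show a % 3 = 1 by omega,
      show b % 3 = 1 by omega]
  have h5 : a * b * (a + b) % 5 = 2 := by
    rw [Nat.mul_mod, Nat.mul_mod a b, Nat.add_mod a b, show a % 5 = 1 by omega,
      show b % 5 = 1 by omega]
  have hpd1 : p ∣ a * b * (a + b) := (Dvd.intro p rfl).trans hpd
  have n2 : p ≠ 2 := by
    rintro rfl
    have := Nat.mod_eq_zero_of_dvd hpd
    omega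
  have n3 : p ≠ 3 := by
    rintro rfl
    have := Nat.mod_eq_zero_of_dvd hpd1
    omega
  have n5 : p ≠ 5 := by
    rintro rfl
    have := Nat.mod_eq_zero_of_dvd hpd1
    omega
  have h7 : 7 ≤ p := by
    by_contra hlt
    push Not at hlt
    have := hp.two_le
    interval_cases p
    · exact n2 rfl
    · exact n3 rfl
    · revert hp; decide
    · exact n5 rfl
    · revert hp; decide
  have hco : Nat.Coprime p 60 := by
    rw [Nat.Prime.coprime_iff_not_dvd hp]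
    intro hd
    have e1 : (60 : ℕ) = 4 * (3 * 5) := by norm_num
    rw [e1, hp.dvd_mul, hp.dvd_mul] at hd
    rcases hd with hd | hd | hd
    · have := Nat.le_of_dvd (by norm_num) hd
      omega
    · have := Nat.le_of_dvd (by norm_num) hd
      omega
    · have := Nat.le_of_dvd (by norm_num) hd
      omega
  have hpair : (a, b) ∈ AA Y ×ˢ AA Y := mem_product.2 ⟨ha, hb⟩
  have hsq : p * p = p ^ 2 := (sq p).symm
  have hmem : ∀ c, 0 < c → c ≤ 4 * Y → p ^ 2 ∣ c → p ∈ MM (Nat.sqrt (4 * Y)) := by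
    intro c hc0 hc hd
    refine mem_filter.2 ⟨mem_Icc.2 ⟨h7, Nat.le_sqrt.2 ?_⟩, hco⟩
    rw [hsq]
    exact (Nat.le_of_dvd hc0 hd).trans hc
  rw [hsq] at hpd
  rw [mem_union, mem_biUnion, mem_biUnion]
  by_cases hpa : p ∣ a
  · by_cases hpb : p ∣ b
    · right
      refine ⟨p, mem_filter.2 ⟨mem_Icc.2 ⟨h7, (Nat.le_of_dvd (by omega) hpa).trans ha2⟩, hco⟩, ?_⟩
      exact mem_filter.2 ⟨hpair, hpa, hpb⟩
    · left
      have hab : ¬ p ∣ a + b := fun h => hpb ((Nat.dvd_add_right hpa).1 h)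
      have e1 : Nat.Coprime (p ^ 2) (a + b) :=
        Nat.Coprime.pow_left 2 ((Nat.Prime.coprime_iff_not_dvd hp).2 hab)
      have e2 : Nat.Coprime (p ^ 2) b :=
        Nat.Coprime.pow_left 2 ((Nat.Prime.coprime_iff_not_dvd hp).2 hpb)
      have e3 : p ^ 2 ∣ a := e2.dvd_of_dvd_mul_right (e1.dvd_of_dvd_mul_right hpd)
      refine ⟨p, hmem a (by omega) (by omega) e3, ?_⟩
      rw [mem_union, mem_union]
      exact Or.inl (Or.inl (mem_filter.2 ⟨hpair, e3⟩))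
  · have e0 : Nat.Coprime (p ^ 2) a :=
      Nat.Coprime.pow_left 2 ((Nat.Prime.coprime_iff_not_dvd hp).2 hpa)
    left
    by_cases hpb : p ∣ b
    · have hab : ¬ p ∣ a + b := fun h => hpa ((Nat.dvd_add_left hpb).1 h)
      have e1 : Nat.Coprime (p ^ 2) (a + b) :=
        Nat.Coprime.pow_left 2 ((Nat.Prime.coprime_iff_not_dvd hp).2 hab)
      have e3 : p ^ 2 ∣ b := e0.dvd_of_dvd_mul_left (e1.dvd_of_dvd_mul_right hpd)
      refine ⟨p, hmem b (by omega) (by omega) e3, ?_⟩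
      rw [mem_union, mem_union]
      exact Or.inl (Or.inr (mem_filter.2 ⟨hpair, e3⟩))
    · have e2 : Nat.Coprime (p ^ 2) b :=
        Nat.Coprime.pow_left 2 ((Nat.Prime.coprime_iff_not_dvd hp).2 hpb)
      have e3 : p ^ 2 ∣ a + b := (Nat.Coprime.mul_right e0 e2).dvd_of_dvd_mul_left hpd
      refine ⟨p, hmem (a + b) (by omega) (by omega) e3, ?_⟩
      rw [mem_union, mem_union]
      exact Or.inr (mem_filter.2 ⟨hpair, e3⟩)

theorem card_B1 {Y m : ℕ} (hm : Nat.Coprime m 60) (hm0 : 0 < m) :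
    ((B1 Y m).card : ℝ) ≤ (AA Y).card * ((Y : ℝ) / 60 * (1 / (m : ℝ) ^ 2) + 1) := by
  have e1 : B1 Y m = ((AA Y).filter fun a => m ^ 2 ∣ a + 0) ×ˢ AA Y := by
    ext x
    simp only [B1, mem_filter, mem_product]
    tauto
  have e2 := cnt_dvd (Y := Y) (Nat.Coprime.pow_left 2 hm) (pow_pos hm0 2) 0
  rw [e1, card_product, Nat.cast_mul, mul_comm]
  refine mul_le_mul_of_nonneg_left (e2.trans (le_of_eq ?_)) (Nat.cast_nonneg _)
  push_cast
  have : (m : ℝ) ≠ 0 := by positivity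
  field_simp

theorem card_B2 {Y m : ℕ} (hm : Nat.Coprime m 60) (hm0 : 0 < m) :
    ((B2 Y m).card : ℝ) ≤ (AA Y).card * ((Y : ℝ) / 60 * (1 / (m : ℝ) ^ 2) + 1) := by
  have e1 : B2 Y m = AA Y ×ˢ ((AA Y).filter fun a => m ^ 2 ∣ a + 0) := by
    ext x
    simp only [B2, mem_filter, mem_product]
    tauto
  have e2 := cnt_dvd (Y := Y) (Nat.Coprime.pow_left 2 hm) (pow_pos hm0 2) 0
  rw [e1, card_product, Nat.cast_mul]
  refine mul_le_mul_of_nonneg_left (e2.trans (le_of_eq ?_)) (Nat.cast_nonneg _)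
  push_cast
  have : (m : ℝ) ≠ 0 := by positivity
  field_simp

theorem card_B3 {Y m : ℕ} (hm : Nat.Coprime m 60) (hm0 : 0 < m) :
    ((B3 Y m).card : ℝ) ≤ (AA Y).card * ((Y : ℝ) / 60 * (1 / (m : ℝ) ^ 2) + 1) := by
  have e1 : B3 Y m ⊆ (AA Y).biUnion fun b => ((AA Y).filter fun a => m ^ 2 ∣ a + b) ×ˢ {b} := by
    intro x hx
    simp only [B3, mem_filter, mem_product] at hx
    simp only [mem_biUnion, mem_product, mem_filter, mem_singleton]
    exact ⟨x.2, hx.1.2, ⟨hx.1.1, hx.2⟩, rfl⟩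
  have e2 : (B3 Y m).card ≤ ∑ b ∈ AA Y, ((AA Y).filter fun a => m ^ 2 ∣ a + b).card := by
    refine (card_le_card e1).trans (card_biUnion_le.trans (le_of_eq ?_))
    refine sum_congr rfl fun b _ => ?_
    rw [card_product, card_singleton, mul_one]
  calc ((B3 Y m).card : ℝ) ≤ ∑ b ∈ AA Y, ((((AA Y).filter fun a => m ^ 2 ∣ a + b).card : ℕ) : ℝ) := by
        exact_mod_cast e2
    _ ≤ ∑ _b ∈ AA Y, ((Y : ℝ) / 60 * (1 / (m : ℝ) ^ 2) + 1) := by
        refine sum_le_sum fun b _ => ?_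
        refine (cnt_dvd (Y := Y) (Nat.Coprime.pow_left 2 hm) (pow_pos hm0 2) b).trans (le_of_eq ?_)
        push_cast
        have : (m : ℝ) ≠ 0 := by positivity
        field_simp
    _ = (AA Y).card * ((Y : ℝ) / 60 * (1 / (m : ℝ) ^ 2) + 1) := by
        rw [sum_const, nsmul_eq_mul]

theorem card_B4 {Y m : ℕ} (hm : Nat.Coprime m 60) (hm0 : 0 < m) :
    ((B4 Y m).card : ℝ) ≤ 2 * ((Y : ℝ) / 60) ^ 2 * (1 / (m : ℝ) ^ 2) + 2 := by
  have e1 : B4 Y m = ((AA Y).filter fun a => m ∣ a + 0) ×ˢ ((AA Y).filter fun a => m ∣ a + 0) := by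
    ext x
    simp only [B4, mem_filter, mem_product]
    tauto
  have e2 := cnt_dvd (Y := Y) hm hm0 0
  rw [e1, card_product, Nat.cast_mul]
  set k : ℝ := ((((AA Y).filter fun a => m ∣ a + 0).card : ℕ) : ℝ)
  have hk : 0 ≤ k := Nat.cast_nonneg _
  have hx : (0 : ℝ) ≤ (Y : ℝ) / (60 * m) := by positivity
  have e3 : 2 * ((Y : ℝ) / 60) ^ 2 * (1 / (m : ℝ) ^ 2) = 2 * ((Y : ℝ) / (60 * m)) ^ 2 := by
    have : (m : ℝ) ≠ 0 := by positivity
    field_simp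
  rw [e3]
  nlinarith [sq_nonneg ((Y : ℝ) / (60 * m) - 1), mul_le_mul e2 e2 hk (by positivity)]

theorem t_LOW : S_LOW := by
  refine ⟨1 / 43200, by norm_num, 10 ^ 10, fun Y hY => ?_⟩
  have hY1 : 1 ≤ Y := le_trans (by norm_num) hY
  -- the decomposition
  have hFam : Fam Y = (AA Y ×ˢ AA Y).filter fun x => Squarefree (R x) := by
    ext x
    simp only [Fam, mem_filter, mem_product, mem_AA, mem_Ioc]
    tauto
  have hsplit : (AA Y).card * (AA Y).card = (Fam Y).card +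
      ((AA Y ×ˢ AA Y).filter fun x => ¬ Squarefree (R x)).card := by
    rw [hFam, card_filter_add_card_filter_not, card_product]
  have hbad : ((AA Y ×ˢ AA Y).filter fun x => ¬ Squarefree (R x)).card ≤
      ∑ m ∈ MM (Nat.sqrt (4 * Y)), ((B1 Y m).card + (B2 Y m).card + (B3 Y m).card) +
        ∑ m ∈ MM (2 * Y), (B4 Y m).card := by
    have e1 : ((AA Y ×ˢ AA Y).filter fun x => ¬ Squarefree (R x)) ⊆
        (MM (Nat.sqrt (4 * Y))).biUnion (fun m => B1 Y m ∪ B2 Y m ∪ B3 Y m) ∪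
          (MM (2 * Y)).biUnion (B4 Y) := by
      intro x hx
      obtain ⟨hx1, hx2⟩ := mem_filter.1 hx
      obtain ⟨hx3, hx4⟩ := mem_product.1 hx1
      exact bad_cover hx3 hx4 hx2
    refine (card_le_card e1).trans ((card_union_le _ _).trans (add_le_add ?_ card_biUnion_le))
    refine card_biUnion_le.trans (sum_le_sum fun m _ => ?_)
    exact (card_union_le _ _).trans (Nat.add_le_add_right (card_union_le _ _) _)
  set n : ℝ := ((AA Y).card : ℝ) with hn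
  have hn0 : 0 ≤ n := Nat.cast_nonneg _
  set y : ℝ := (Y : ℝ) / 60 with hy
  have hn1 : n ≤ y + 1 := by
    have h1 : ((AA Y).card : ℝ) ≤ ((Y / 60 + 1 : ℕ) : ℝ) := by exact_mod_cast AA_le Y
    have h2 : ((Y / 60 : ℕ) : ℝ) ≤ (Y : ℝ) / ((60 : ℕ) : ℝ) := Nat.cast_div_le
    push_cast at h1 h2
    rw [hn, hy]
    linarith
  have hn2 : y - 1 ≤ n := by
    have h1 : (Y : ℝ) ≤ ((60 * (AA Y).card + 60 : ℕ) : ℝ) := by exact_mod_cast le_AA hY1
    push_cast at h1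
    rw [hn, hy]
    linarith
  have hMM : ∀ M, ∀ m ∈ MM M, Nat.Coprime m 60 ∧ 0 < m := by
    intro M m hm
    obtain ⟨h1, h2⟩ := mem_filter.1 hm
    exact ⟨h2, by have := (mem_Icc.1 h1).1; omega⟩
  have hsum1 : ∑ m ∈ MM (Nat.sqrt (4 * Y)),
      (((B1 Y m).card : ℝ) + ((B2 Y m).card : ℝ) + ((B3 Y m).card : ℝ)) ≤
      3 * n * (y / 6 + Nat.sqrt (4 * Y)) := by
    calc ∑ m ∈ MM (Nat.sqrt (4 * Y)),
        (((B1 Y m).card : ℝ) + ((B2 Y m).card : ℝ) + ((B3 Y m).card : ℝ))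
        ≤ ∑ m ∈ MM (Nat.sqrt (4 * Y)), 3 * n * (y * (1 / (m : ℝ) ^ 2) + 1) := by
          refine sum_le_sum fun m hm => ?_
          obtain ⟨h1, h2⟩ := hMM _ m hm
          have := card_B1 (Y := Y) h1 h2
          have := card_B2 (Y := Y) h1 h2
          have := card_B3 (Y := Y) h1 h2
          rw [hn, hy]
          linarith
      _ = 3 * n * (y * ∑ m ∈ MM (Nat.sqrt (4 * Y)), 1 / (m : ℝ) ^ 2 +
          (MM (Nat.sqrt (4 * Y))).card) := by
          rw [← mul_sum, sum_add_distrib, ← mul_sum, sum_const, nsmul_eq_mul, mul_one]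
      _ ≤ 3 * n * (y / 6 + Nat.sqrt (4 * Y)) := by
          have h1 := sum_MM (Nat.sqrt (4 * Y))
          have h2 : ((MM (Nat.sqrt (4 * Y))).card : ℝ) ≤ (Nat.sqrt (4 * Y) : ℝ) := by
            exact_mod_cast card_MM _
          have h3 : 0 ≤ y := by positivity
          refine mul_le_mul_of_nonneg_left (add_le_add ?_ h2) (by positivity)
          calc y * ∑ m ∈ MM (Nat.sqrt (4 * Y)), 1 / (m : ℝ) ^ 2 ≤ y * (1 / 6) :=
                mul_le_mul_of_nonneg_left h1 h3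
            _ = y / 6 := by ring
  have hsum2 : ∑ m ∈ MM (2 * Y), ((B4 Y m).card : ℝ) ≤ y ^ 2 / 3 + 4 * Y := by
    calc ∑ m ∈ MM (2 * Y), ((B4 Y m).card : ℝ)
        ≤ ∑ m ∈ MM (2 * Y), (2 * y ^ 2 * (1 / (m : ℝ) ^ 2) + 2) :=
          sum_le_sum fun m hm => card_B4 (hMM _ m hm).1 (hMM _ m hm).2
      _ = 2 * y ^ 2 * ∑ m ∈ MM (2 * Y), 1 / (m : ℝ) ^ 2 + (MM (2 * Y)).card * 2 := by
          rw [sum_add_distrib, ← mul_sum, sum_const, nsmul_eq_mul]
      _ ≤ 2 * y ^ 2 * (1 / 6) + ((2 * Y : ℕ) : ℝ) * 2 := by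
          have h1 := sum_MM (2 * Y)
          have h2 : ((MM (2 * Y)).card : ℝ) ≤ ((2 * Y : ℕ) : ℝ) := by exact_mod_cast card_MM _
          gcongr
      _ = y ^ 2 / 3 + 4 * Y := by push_cast; ring
  have hbadR : ((((AA Y ×ˢ AA Y).filter fun x => ¬ Squarefree (R x)).card : ℕ) : ℝ) ≤
      3 * n * (y / 6 + Nat.sqrt (4 * Y)) + (y ^ 2 / 3 + 4 * Y) := by
    have h1 : ((((AA Y ×ˢ AA Y).filter fun x => ¬ Squarefree (R x)).card : ℕ) : ℝ) ≤
        ((∑ m ∈ MM (Nat.sqrt (4 * Y)), ((B1 Y m).card + (B2 Y m).card + (B3 Y m).card) +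
        ∑ m ∈ MM (2 * Y), (B4 Y m).card : ℕ) : ℝ) := by exact_mod_cast hbad
    push_cast at h1
    linarith
  have hsplitR : n * n = ((Fam Y).card : ℝ) +
      ((((AA Y ×ˢ AA Y).filter fun x => ¬ Squarefree (R x)).card : ℕ) : ℝ) := by
    rw [hn]
    exact_mod_cast hsplit
  -- the square root
  set s : ℝ := √(Y : ℝ) with hs
  have hs2 : s ^ 2 = (Y : ℝ) := Real.sq_sqrt (Nat.cast_nonneg _)
  have hs0 : 0 ≤ s := Real.sqrt_nonneg _
  have hsl : (10 : ℝ) ^ 5 ≤ s := by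
    rw [hs]
    apply Real.le_sqrt_of_sq_le
    have : ((10 ^ 10 : ℕ) : ℝ) ≤ (Y : ℝ) := by exact_mod_cast hY
    push_cast at this
    linarith
  have hsq : (Nat.sqrt (4 * Y) : ℝ) ≤ 2 * s := by
    have h1 : (Nat.sqrt (4 * Y) : ℝ) ≤ √((4 * Y : ℕ) : ℝ) := Real.nat_sqrt_le_real_sqrt
    have h2 : √((4 * Y : ℕ) : ℝ) = 2 * s := by
      rw [hs, show ((4 * Y : ℕ) : ℝ) = 2 ^ 2 * (Y : ℝ) by push_cast; ring,
        Real.sqrt_mul (by norm_num), Real.sqrt_sq (by norm_num)]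
    rw [h2] at h1
    exact h1
  have hyy : y = s ^ 2 / 60 := by rw [hy, hs2]
  have hy0 : 0 ≤ y := by positivity
  have hy1 : 1 ≤ y := by
    rw [hyy]
    nlinarith
  have k1 : (y - 1) ^ 2 ≤ n * n := by nlinarith
  have k2 : 3 * n * (y / 6 + Nat.sqrt (4 * Y)) ≤ 3 * (y + 1) * (y / 6 + 2 * s) := by
    gcongr
  have k3 : (y - 1) ^ 2 - 3 * (y + 1) * (y / 6 + 2 * s) - (y ^ 2 / 3 + 4 * s ^ 2) ≤
      ((Fam Y).card : ℝ) := by
    rw [hs2]
    linarith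
  refine le_trans ?_ k3
  rw [← hs2, hyy]
  have k4 : 0 ≤ s ^ 3 * (s - 10 ^ 5) := mul_nonneg (pow_nonneg hs0 3) (by linarith)
  have k5 : 0 ≤ s ^ 2 * (s - 10 ^ 5) := mul_nonneg (pow_nonneg hs0 2) (by linarith)
  have k6 : 0 ≤ s * (s - 10 ^ 5) := mul_nonneg hs0 (by linarith)
  nlinarith

end Pool.Agent.K3h97.RS
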